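import Pool.Agent.U481.HW.Stm

set_option autoImplicit false

/-!
Project HW, package SUM: sparse sums are bounded in `L^p(w)` for `w` in `A_p`.
-/

open MeasureTheory Filter Topology Set
open scoped ENNReal NNReal

namespace Pool.Agent.U83.HW.SUM

open Pool.Agent.U481.HW

lemma isOpen_MM (μ : Measure ℝ) (f : ℝ → ℝ≥0∞) (t : ℝ≥0∞) : IsOpen {x | t < MM μ f x} := by
  rw [isOpen_iff_mem_nhds]
  intro x hx
  simp only [MM, lt_iSup_iff] at hx
  obtain ⟨a, b, hab, h⟩ := hx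
  filter_upwards [Ioo_mem_nhds hab.1 hab.2] with y hy
  simp only [MM, lt_iSup_iff]
  exact ⟨a, b, hy, h⟩

lemma measurable_MM (μ : Measure ℝ) (f : ℝ → ℝ≥0∞) : Measurable (MM μ f) :=
  measurable_of_Ioi fun t => (isOpen_MM μ f t).measurableSet

lemma le_MM {μ : Measure ℝ} {f : ℝ → ℝ≥0∞} {a b x : ℝ} (h : x ∈ Ioo a b) :
    (∫⁻ y in Ioo a b, f y ∂μ) / μ (Ioo a b) ≤ MM μ f x := by
  unfold MM
  exact le_iSup_of_le a (le_iSup_of_le b (le_iSup_of_le ⟨h.1, h.2⟩ le_rfl))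

/-- interior of `DD r` -/
def DI (r : ℤ × ℤ) : Set ℝ := Ioo ((r.2 : ℝ) * 2 ^ r.1) (((r.2 : ℝ) + 1) * 2 ^ r.1)

lemma DI_ae (r : ℤ × ℤ) : (DI r : Set ℝ) =ᵐ[volume] DD r := Ioo_ae_eq_Ico

lemma DI_sub (r : ℤ × ℤ) : DI r ⊆ DD r := Ioo_subset_Ico_self

lemma measDI (r : ℤ × ℤ) : MeasurableSet (DI r) := measurableSet_Ioo

lemma measDD (r : ℤ × ℤ) : MeasurableSet (DD r) := measurableSet_Ico

lemma pow_pos' (r : ℤ × ℤ) : (0 : ℝ) < 2 ^ r.1 := by positivity

lemma DD_lt (r : ℤ × ℤ) : (r.2 : ℝ) * 2 ^ r.1 < ((r.2 : ℝ) + 1) * 2 ^ r.1 := by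
  have := pow_pos' r
  nlinarith

lemma volDD (r : ℤ × ℤ) : volume (DD r) =
    ENNReal.ofReal (((r.2 : ℝ) + 1) * 2 ^ r.1 - (r.2 : ℝ) * 2 ^ r.1) := by
  unfold DD
  rw [Real.volume_Ico]

lemma volDD_ne_top (r : ℤ × ℤ) : volume (DD r) ≠ ⊤ := by
  rw [volDD]; exact ENNReal.ofReal_ne_top

lemma volDD_ne_zero (r : ℤ × ℤ) : volume (DD r) ≠ 0 := by
  rw [volDD]
  have := DD_lt r
  simp only [ne_eq, ENNReal.ofReal_eq_zero, not_le]
  linarith

/-- average over the triple is below the maximal function -/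
lemma av_le (f : ℝ → ℂ) (r : ℤ × ℤ) {x : ℝ} (hx : x ∈ DI r) :
    av f r ≤ MM volume (fun y => ‖f y‖ₑ) x := by
  have hp := pow_pos' r
  have hx' : x ∈ Ioo (((r.2 : ℝ) - 1) * 2 ^ r.1) (((r.2 : ℝ) + 2) * 2 ^ r.1) := by
    unfold DI at hx
    constructor
    · have := hx.1; nlinarith
    · have := hx.2; nlinarith
  have h := le_MM (μ := volume) (f := fun y => ‖f y‖ₑ) hx'
  have he : (D3 r : Set ℝ) =ᵐ[volume] Ioo (((r.2 : ℝ) - 1) * 2 ^ r.1) (((r.2 : ℝ) + 2) * 2 ^ r.1) :=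
    Ioo_ae_eq_Ico.symm
  unfold av
  rw [measure_congr he, setLIntegral_congr he]
  exact h

/-- Hölder: `|E|^p ≤ w(E) s(E)^(p-1)`. -/
lemma holder_vol {p : ℝ} (hp : 1 < p) {w : ℝ → ℝ≥0∞} (hw : Measurable w)
    (h0 : ∀ᵐ x, w x ≠ 0) (ht : ∀ᵐ x, w x ≠ ⊤) (E : Set ℝ) :
    volume E ^ p ≤ (∫⁻ x in E, w x) * (∫⁻ x in E, (w x) ^ (-1 / (p - 1))) ^ (p - 1) := by
  have hp0 : 0 < p := by linarith
  have hp1 : 0 < p - 1 := by linarith
  have hpq : p.HolderConjugate (p / (p - 1)) := Real.HolderConjugate.conjExponent hp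
  have h1 := ENNReal.lintegral_mul_le_Lp_mul_Lq (volume.restrict E) hpq
    (f := fun x => w x ^ (1 / p)) (g := fun x => w x ^ (-(1 / p)))
    (hw.pow_const _).aemeasurable (hw.pow_const _).aemeasurable
  have h2 : volume E = ∫⁻ x in E, ((fun x => w x ^ (1 / p)) * (fun x => w x ^ (-(1 / p)))) x := by
    rw [← setLIntegral_one]
    apply lintegral_congr_ae
    filter_upwards [ae_restrict_of_ae h0, ae_restrict_of_ae ht] with x hx0 hxt
    simp only [Pi.mul_apply]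
    rw [← ENNReal.rpow_add _ _ hx0 hxt]
    simp
  have h3 : ∀ x, (w x ^ (1 / p)) ^ p = w x := fun x => by
    rw [← ENNReal.rpow_mul]; simp [hp0.ne']
  have h4 : ∀ x, (w x ^ (-(1 / p))) ^ (p / (p - 1)) = w x ^ (-1 / (p - 1)) := fun x => by
    rw [← ENNReal.rpow_mul]; congr 1; field_simp
  simp only [h3, h4] at h1
  rw [← h2] at h1
  calc volume E ^ p ≤ ((∫⁻ x in E, w x) ^ (1 / p) *
        (∫⁻ x in E, (w x) ^ (-1 / (p - 1))) ^ (1 / (p / (p - 1)))) ^ p :=
        ENNReal.rpow_le_rpow h1 hp0.le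
    _ = _ := by
        rw [ENNReal.mul_rpow_of_nonneg _ _ hp0.le, ← ENNReal.rpow_mul, ← ENNReal.rpow_mul]
        congr 2
        · rw [one_div_mul_cancel hp0.ne', ENNReal.rpow_one]
        · field_simp

lemma ae_ne_top_of_loc {g : ℝ → ℝ≥0∞} (hg : Measurable g)
    (h : ∀ a b : ℝ, (∫⁻ x in Ioo a b, g x) < ⊤) : ∀ᵐ x, g x ≠ ⊤ := by
  have h1 : ∀ n : ℕ, ∀ᵐ x, x ∈ Ioo (-(n : ℝ)) n → g x < ⊤ := fun n =>
    (ae_restrict_iff' measurableSet_Ioo).1 (ae_lt_top hg (h _ _).ne)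
  filter_upwards [ae_all_iff.2 h1] with x hx
  obtain ⟨n, hn⟩ := exists_nat_gt |x|
  exact (hx n ⟨(abs_lt.1 hn).1, (abs_lt.1 hn).2⟩).ne

lemma w_ne_top {p : ℝ} {w : ℝ → ℝ≥0∞} {K : ℝ≥0∞} (h : ApC p w K) : ∀ᵐ x, w x ≠ ⊤ :=
  ae_ne_top_of_loc h.meas h.fin

lemma w_ne_zero {p : ℝ} (hp : 1 < p) {w : ℝ → ℝ≥0∞} {K : ℝ≥0∞} (h : ApC p w K) :
    ∀ᵐ x, w x ≠ 0 := by
  filter_upwards [ae_ne_top_of_loc (h.meas.pow_const (-1 / (p - 1))) h.sfin] with x hx h0
  apply hx
  rw [h0, ENNReal.zero_rpow_of_neg]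
  have : 0 < p - 1 := by linarith
  exact div_neg_of_neg_of_pos (by norm_num) this

/-- the doubling type inequality for the major part of a dyadic interval -/
lemma w_le {p : ℝ} (hp : 1 < p) {w : ℝ → ℝ≥0∞} {K : ℝ≥0∞} (h : ApC p w K) (r : ℤ × ℤ)
    {E : Set ℝ} (hE : E ⊆ DD r) (hv : volume (DD r) ≤ 2 * volume E) :
    (∫⁻ x in DD r, w x) ≤ K * 2 ^ p * ∫⁻ x in E, w x := by
  have hp0 : 0 < p := by linarith
  have hp1 : 0 < p - 1 := by linarith
  have hsm : Measurable fun x => (w x) ^ (-1 / (p - 1)) := h.meas.pow_const _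
  have hA := h.ap _ _ (DD_lt r)
  have e1 : ∀ g : ℝ → ℝ≥0∞, (∫⁻ x in Ioo ((r.2 : ℝ) * 2 ^ r.1) (((r.2 : ℝ) + 1) * 2 ^ r.1), g x)
      = ∫⁻ x in DD r, g x := fun g => setLIntegral_congr (DI_ae r)
  rw [e1, e1, ← volDD] at hA
  set S := ∫⁻ x in DD r, (w x) ^ (-1 / (p - 1)) with hS
  have hSt : S ≠ ⊤ := by
    rw [hS, ← e1]; exact (h.sfin _ _).ne
  have hS0 : S ≠ 0 := by
    intro h0
    rw [hS, lintegral_eq_zero_iff hsm] at h0
    have h1 : ∀ᵐ x ∂(volume.restrict (DD r)), False := by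
      filter_upwards [h0, ae_restrict_of_ae (w_ne_top h)] with x hx hx'
      simp only [Pi.zero_apply] at hx
      rcases ENNReal.rpow_eq_zero_iff.1 hx with ⟨h1, h2⟩ | ⟨h1, _⟩
      · have : -1 / (p - 1) < 0 := div_neg_of_neg_of_pos (by norm_num) hp1
        linarith
      · exact hx' h1
    rw [ae_iff] at h1
    simp only [not_false_eq_true] at h1
    have h2 : volume (DD r) = 0 := by
      simpa using h1
    exact volDD_ne_zero r h2
  have hSp0 : S ^ (p - 1) ≠ 0 := by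
    rw [ne_eq, ENNReal.rpow_eq_zero_iff]
    push Not
    exact ⟨fun h => absurd h hS0, fun h => absurd h hSt⟩
  have hSpt : S ^ (p - 1) ≠ ⊤ := ENNReal.rpow_ne_top_of_nonneg hp1.le hSt
  have hH := holder_vol hp h.meas (w_ne_zero hp h) (w_ne_top h) E
  have hsE : (∫⁻ x in E, (w x) ^ (-1 / (p - 1))) ≤ S := lintegral_mono_set hE
  have key : (∫⁻ x in DD r, w x) * S ^ (p - 1) ≤ (K * 2 ^ p * ∫⁻ x in E, w x) * S ^ (p - 1) := by
    calc (∫⁻ x in DD r, w x) * S ^ (p - 1) ≤ K * volume (DD r) ^ p := hA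
      _ ≤ K * (2 * volume E) ^ p := by gcongr
      _ = K * 2 ^ p * volume E ^ p := by
          rw [ENNReal.mul_rpow_of_nonneg _ _ hp0.le, mul_assoc]
      _ ≤ K * 2 ^ p * ((∫⁻ x in E, w x) * (∫⁻ x in E, (w x) ^ (-1 / (p - 1))) ^ (p - 1)) := by
          gcongr
      _ ≤ K * 2 ^ p * ((∫⁻ x in E, w x) * S ^ (p - 1)) := by gcongr
      _ = _ := by ring
  exact (ENNReal.mul_le_mul_iff_left hSp0 hSpt).1 key

/-- one term of the sparse sum -/
lemma term_le {p : ℝ} (hp : 1 < p) {w : ℝ → ℝ≥0∞} {K : ℝ≥0∞} (h : ApC p w K) (f : ℝ → ℂ)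
    {g : ℝ → ℝ≥0∞} (hg : Measurable g) (r : ℤ × ℤ) {E : Set ℝ} (hEm : MeasurableSet E)
    (hE : E ⊆ DD r) (hv : volume (DD r) ≤ 2 * volume E) :
    av f r * (∫⁻ x in DD r, g x * w x) ≤ K * 2 ^ p *
      ∫⁻ x in E, MM volume (fun y => ‖f y‖ₑ) x * MM (volume.withDensity w) g x * w x := by
  have hW := w_le hp h r hE hv
  have hWt : (∫⁻ x in DD r, w x) ≠ ⊤ := by
    rw [← setLIntegral_congr (DI_ae r)]; exact (h.fin _ _).ne
  set μ := volume.withDensity w with hμ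
  have hμI : μ (DI r) = ∫⁻ x in DD r, w x := by
    rw [hμ, withDensity_apply _ (measDI r)]
    exact setLIntegral_congr (DI_ae r)
  have hgI : (∫⁻ x in DD r, g x * w x) = ∫⁻ x in DI r, g x ∂μ := by
    rw [hμ, setLIntegral_withDensity_eq_setLIntegral_mul volume h.meas hg (measDI r),
      ← setLIntegral_congr (DI_ae r)]
    simp only [Pi.mul_apply, mul_comm]
  set c := (∫⁻ x in DI r, g x ∂μ) / μ (DI r) with hc
  have hcW : (∫⁻ x in DI r, g x ∂μ) ≤ c * ∫⁻ x in DD r, w x := by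
    rw [← hμI]
    by_cases h0 : μ (DI r) = 0
    · rw [Measure.restrict_eq_zero.2 h0]; simp
    · rw [hc, ENNReal.div_mul_cancel h0 (by rw [hμI]; exact hWt)]
  rw [hgI]
  calc av f r * (∫⁻ x in DI r, g x ∂μ) ≤ av f r * (c * (K * 2 ^ p * ∫⁻ x in E, w x)) := by
        gcongr
        exact hcW.trans (by gcongr)
    _ = K * 2 ^ p * ((av f r * c) * ∫⁻ x in E, w x) := by ring
    _ = K * 2 ^ p * (∫⁻ x in E, (av f r * c) * w x) := by
        rw [lintegral_const_mul _ h.meas]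
    _ ≤ _ := by
        refine mul_le_mul_right ?_ _
        apply lintegral_mono_ae
        rw [ae_restrict_iff' hEm]
        filter_upwards [(DI_ae r).mem_iff] with x hx hxE
        have hxI : x ∈ DI r := hx.2 (hE hxE)
        gcongr
        · exact av_le f r hxI
        · exact le_MM hxI

/-- the sets `E_r` -/
def EE (G : ℕ → Set (ℤ × ℤ)) (k : ℕ) (r : ℤ × ℤ) : Set ℝ := DD r \ ⋃ s ∈ G (k + 1), DD s

lemma measUn (S : Set (ℤ × ℤ)) : MeasurableSet (⋃ s ∈ S, DD s) :=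
  MeasurableSet.biUnion (Set.to_countable S) fun s _ => measDD s

lemma measEE (G : ℕ → Set (ℤ × ℤ)) (k : ℕ) (r : ℤ × ℤ) : MeasurableSet (EE G k r) :=
  (measDD r).diff (measUn _)

lemma vol_EE {q : ℤ × ℤ} {G : ℕ → Set (ℤ × ℤ)} (hG : Sparse q G) (k : ℕ) {r : ℤ × ℤ}
    (hr : r ∈ G k) : volume (DD r) ≤ 2 * volume (EE G k r) := by
  have h1 := hG.half k r hr
  have h2 : volume (DD r ∩ ⋃ s ∈ G (k + 1), DD s) + volume (EE G k r) = volume (DD r) :=
    measure_inter_add_sdiff _ (measUn _)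
  have ht := volDD_ne_top r
  have h3 : volume (DD r) + volume (DD r) ≤ 2 * volume (EE G k r) + volume (DD r) := by
    calc volume (DD r) + volume (DD r) = 2 * volume (DD r) := by rw [two_mul]
      _ = 2 * (volume (DD r ∩ ⋃ s ∈ G (k + 1), DD s) + volume (EE G k r)) := by rw [h2]
      _ = 2 * volume (EE G k r) + 2 * volume (DD r ∩ ⋃ s ∈ G (k + 1), DD s) := by
          rw [mul_add, add_comm]
      _ ≤ _ := by gcongr
  exact (ENNReal.add_le_add_iff_right ht).1 h3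

lemma anti_le {q : ℤ × ℤ} {G : ℕ → Set (ℤ × ℤ)} (hG : Sparse q G) {k l : ℕ} (h : k ≤ l) :
    (⋃ s ∈ G l, DD s) ⊆ ⋃ s ∈ G k, DD s := by
  induction h with
  | refl => exact Subset.rfl
  | step _ ih => exact (hG.anti _).trans ih

lemma EE_disj {q : ℤ × ℤ} {G : ℕ → Set (ℤ × ℤ)} (hG : Sparse q G) {k l : ℕ} (hkl : k < l)
    {r s : ℤ × ℤ} (hs : s ∈ G l) : Disjoint (EE G k r) (EE G l s) := by
  rw [Set.disjoint_left]
  intro x hx hx'
  apply hx.2
  apply anti_le hG (Nat.succ_le_of_lt hkl)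
  exact mem_biUnion hs hx'.1

lemma sum_le {q : ℤ × ℤ} {G : ℕ → Set (ℤ × ℤ)} (hG : Sparse q G) (F : ℝ → ℝ≥0∞) :
    (∑' k : ℕ, ∑' r : G k, ∫⁻ x in EE G k r.1, F x) ≤ ∫⁻ x, F x := by
  have h1 : (∑' k : ℕ, ∑' r : G k, ∫⁻ x in EE G k r.1, F x)
      = ∑' i : (Σ k : ℕ, G k), ∫⁻ x in EE G i.1 i.2.1, F x := by
    rw [ENNReal.tsum_sigma']
  rw [h1, ← lintegral_iUnion (fun i => measEE _ _ _)]
  · exact setLIntegral_le_lintegral _ _
  · intro i j hij
    obtain ⟨k, r, hr⟩ := i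
    obtain ⟨l, s, hs⟩ := j
    simp only [Function.onFun]
    rcases lt_trichotomy k l with h | h | h
    · exact EE_disj hG h hs
    · subst h
      have hrs : r ≠ s := by
        rintro rfl
        exact hij rfl
      exact (hG.disj k hr hs hrs).mono sdiff_subset sdiff_subset
    · exact (EE_disj hG h hr).symm

lemma meas_SS (f : ℝ → ℂ) (G : ℕ → Set (ℤ × ℤ)) : Measurable (SS f G) := by
  unfold SS
  refine Measurable.ennreal_tsum fun k => Measurable.ennreal_tsum fun r => ?_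
  exact measurable_const.indicator (measDD _)

/-- duality estimate -/
lemma dual_le {p : ℝ} (hp : 1 < p) {w : ℝ → ℝ≥0∞} {K : ℝ≥0∞} (h : ApC p w K) (f : ℝ → ℂ)
    {q : ℤ × ℤ} {G : ℕ → Set (ℤ × ℤ)} (hG : Sparse q G) {g : ℝ → ℝ≥0∞} (hg : Measurable g) :
    (∫⁻ x in DD q, SS f G x * (g x * w x)) ≤ K * 2 ^ p *
      ∫⁻ x, MM volume (fun y => ‖f y‖ₑ) x * MM (volume.withDensity w) g x * w x := by
  have hgw : Measurable fun x => g x * w x := hg.mul h.meas
  have h1 : (∫⁻ x in DD q, SS f G x * (g x * w x)) =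
      ∑' k : ℕ, ∑' r : G k, ∫⁻ x in DD q,
        (DD r.1).indicator (fun _ => av f r.1) x * (g x * w x) := by
    have : ∀ x, SS f G x * (g x * w x) = ∑' k : ℕ, ∑' r : G k,
        (DD r.1).indicator (fun _ => av f r.1) x * (g x * w x) := by
      intro x
      unfold SS
      rw [← ENNReal.tsum_mul_right]
      congr 1
      ext k
      rw [← ENNReal.tsum_mul_right]
    simp only [this]
    rw [lintegral_tsum]
    · congr 1
      ext k
      rw [lintegral_tsum]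
      intro r
      exact ((measurable_const.indicator (measDD _)).mul hgw).aemeasurable
    · intro k
      refine Measurable.aemeasurable ?_
      refine Measurable.ennreal_tsum fun r => ?_
      exact (measurable_const.indicator (measDD _)).mul hgw
  rw [h1]
  calc _ ≤ ∑' k : ℕ, ∑' r : G k, K * 2 ^ p * ∫⁻ x in EE G k r.1,
        MM volume (fun y => ‖f y‖ₑ) x * MM (volume.withDensity w) g x * w x := by
        refine ENNReal.tsum_le_tsum fun k => ENNReal.tsum_le_tsum fun r => ?_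
        refine le_trans ?_ (term_le hp h f hg r.1 (measEE G k r.1) sdiff_subset
          (vol_EE hG k r.2))
        rw [← lintegral_const_mul _ hgw]
        calc _ ≤ ∫⁻ x, (DD r.1).indicator (fun x => av f r.1 * (g x * w x)) x := by
              refine le_trans (setLIntegral_le_lintegral _ _) ?_
              refine lintegral_mono fun x => ?_
              by_cases hx : x ∈ DD r.1
              · simp [hx]
              · simp [hx]
          _ = _ := lintegral_indicator (measDD _) _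
    _ = K * 2 ^ p * ∑' k : ℕ, ∑' r : G k, ∫⁻ x in EE G k r.1,
        MM volume (fun y => ‖f y‖ₑ) x * MM (volume.withDensity w) g x * w x := by
        rw [← ENNReal.tsum_mul_left]
        congr 1
        ext k
        rw [← ENNReal.tsum_mul_left]
    _ ≤ _ := by
        gcongr
        exact sum_le hG _

lemma hold_app {p : ℝ} (hp : 1 < p) {w : ℝ → ℝ≥0∞} {K : ℝ≥0∞} (h : ApC p w K)
    {F M : ℝ → ℝ≥0∞} (hF : Measurable F) (hM : Measurable M) :
    (∫⁻ x, F x * M x * w x) ≤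
      (∫⁻ x, F x ^ p * w x) ^ (1 / p) *
        (∫⁻ x, M x ^ (p / (p - 1)) ∂(volume.withDensity w)) ^ (1 / (p / (p - 1))) := by
  have hpq : p.HolderConjugate (p / (p - 1)) := Real.HolderConjugate.conjExponent hp
  have h1 := ENNReal.lintegral_mul_le_Lp_mul_Lq (volume.withDensity w) hpq
    (f := F) (g := M) hF.aemeasurable hM.aemeasurable
  have h2 : (∫⁻ x, (F * M) x ∂(volume.withDensity w)) = ∫⁻ x, F x * M x * w x := by
    rw [lintegral_withDensity_eq_lintegral_mul _ h.meas (hF.mul hM)]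
    simp only [Pi.mul_apply]
    congr 1
    ext x
    ring
  have h3 : (∫⁻ x, F x ^ p ∂(volume.withDensity w)) = ∫⁻ x, F x ^ p * w x := by
    rw [lintegral_withDensity_eq_lintegral_mul _ h.meas (hF.pow_const _)]
    simp only [Pi.mul_apply]
    congr 1
    ext x
    ring
  rw [h2, h3] at h1
  exact h1

lemma MM_congr {f g : ℝ → ℝ≥0∞} (h : f =ᵐ[volume] g) : MM volume f = MM volume g := by
  ext x
  unfold MM
  congr 1
  ext a
  congr 1
  ext b
  congr 1
  ext _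
  rw [lintegral_congr_ae (ae_restrict_of_ae h)]

/-- absorbing a power -/
lemma absorb {p : ℝ} (hp : 1 < p) {A B : ℝ≥0∞} (hA : A ≠ ⊤)
    (h : A ≤ B * A ^ (1 / (p / (p - 1)))) : A ≤ B ^ p := by
  have hp0 : 0 < p := by linarith
  have hp1 : 0 < p - 1 := by linarith
  by_cases h0 : A = 0
  · rw [h0]; exact zero_le
  have hq : 0 ≤ 1 / (p / (p - 1)) := by positivity
  have e1 : A ^ (1 / p) * A ^ (1 / (p / (p - 1))) = A := by
    rw [← ENNReal.rpow_add _ _ h0 hA]
    have : 1 / p + 1 / (p / (p - 1)) = 1 := by field_simp; ring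
    rw [this, ENNReal.rpow_one]
  have e2 : A ^ (1 / (p / (p - 1))) ≠ 0 := by
    rw [ne_eq, ENNReal.rpow_eq_zero_iff]
    push Not
    exact ⟨fun h => absurd h h0, fun h => absurd h hA⟩
  have e3 : A ^ (1 / (p / (p - 1))) ≠ ⊤ := ENNReal.rpow_ne_top_of_nonneg hq hA
  have e4 : A ^ (1 / p) ≤ B := by
    apply (ENNReal.mul_le_mul_iff_left e2 e3).1
    rw [e1]; exact h
  calc A = (A ^ (1 / p)) ^ p := by
        rw [← ENNReal.rpow_mul, one_div_mul_cancel hp0.ne', ENNReal.rpow_one]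
    _ ≤ B ^ p := ENNReal.rpow_le_rpow e4 hp0.le

/-- PACKAGE SUM. -/
theorem main : S_strong → S_muck → S_sum := by
  intro hS hM p hp w K h
  have hp0 : 0 < p := by linarith
  have hp1 : 0 < p - 1 := by linarith
  have hp'0 : 0 < p / (p - 1) := by positivity
  have hp'1 : 1 < p / (p - 1) := by
    rw [lt_div_iff₀ hp1]; linarith
  obtain ⟨Cs, hCs, hS⟩ := hS (p / (p - 1)) hp'1
  obtain ⟨Cm, hCm, hM⟩ := hM p hp w K h
  have hμf : ∀ a b : ℝ, (volume.withDensity w) (Ioo a b) < ⊤ := fun a b => by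
    rw [withDensity_apply _ measurableSet_Ioo]; exact h.fin a b
  have hq0 : 0 ≤ 1 / (p / (p - 1)) := by positivity
  refine ⟨(K * 2 ^ p) ^ p * (Cm * Cs ^ (p - 1)), ?_, ?_⟩
  · have h1 : K * 2 ^ p ≠ ⊤ :=
      ENNReal.mul_ne_top h.Kfin.ne (ENNReal.rpow_ne_top_of_nonneg hp0.le (by norm_num))
    have h2 : (K * 2 ^ p) ^ p ≠ ⊤ := ENNReal.rpow_ne_top_of_nonneg hp0.le h1
    have h3 : Cs ^ (p - 1) ≠ ⊤ := ENNReal.rpow_ne_top_of_nonneg hp1.le hCs.ne
    exact (ENNReal.mul_ne_top h2 (ENNReal.mul_ne_top hCm.ne h3)).lt_top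
  intro f hf q G hG
  set I := ∫⁻ x, ‖f x‖ₑ ^ p * w x with hI
  have hfm : AEMeasurable (fun y => ‖f y‖ₑ) volume := hf.1.enorm
  have hMf : (∫⁻ x, (MM volume (fun y => ‖f y‖ₑ) x) ^ p * w x) ≤ Cm * I := by
    rw [MM_congr hfm.ae_eq_mk]
    refine (hM _ hfm.measurable_mk).trans (le_of_eq ?_)
    rw [hI]
    congr 1
    apply lintegral_congr_ae
    filter_upwards [hfm.ae_eq_mk] with x hx
    rw [← hx]
  have step1 : ∀ g : ℝ → ℝ≥0∞, Measurable g → (∫⁻ x in DD q, SS f G x * (g x * w x)) ≤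
      K * 2 ^ p * ((Cm * I) ^ (1 / p) *
        (Cs * ∫⁻ x, g x ^ (p / (p - 1)) * w x) ^ (1 / (p / (p - 1)))) := by
    intro g hg
    refine (dual_le hp h f hG hg).trans ?_
    refine mul_le_mul_right ?_ _
    refine (hold_app hp h (measurable_MM _ _) (measurable_MM _ _)).trans ?_
    refine mul_le_mul' (ENNReal.rpow_le_rpow hMf (by positivity)) (ENNReal.rpow_le_rpow ?_ hq0)
    refine (hS _ hμf g hg).trans ?_
    rw [lintegral_withDensity_eq_lintegral_mul _ h.meas (hg.pow_const _)]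
    simp only [Pi.mul_apply]
    apply le_of_eq
    congr 2
    ext x
    ring
  have hSm := meas_SS f G
  have hAN : ∀ N : ℕ, (∫⁻ x in DD q, (min (SS f G x) N) ^ p * w x) ≤
      (K * 2 ^ p) ^ p * (Cm * Cs ^ (p - 1)) * I := by
    intro N
    set A := ∫⁻ x in DD q, (min (SS f G x) N) ^ p * w x with hA
    have hmm : Measurable fun x => min (SS f G x) (N : ℝ≥0∞) := hSm.min measurable_const
    have hgm : Measurable ((DD q).indicator fun x => (min (SS f G x) (N : ℝ≥0∞)) ^ (p - 1)) :=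
      (hmm.pow_const _).indicator (measDD q)
    have h1 := step1 _ hgm
    have h2 : (∫⁻ x, ((DD q).indicator (fun x => (min (SS f G x) (N : ℝ≥0∞)) ^ (p - 1)) x)
        ^ (p / (p - 1)) * w x) = A := by
      rw [hA, ← lintegral_indicator (measDD q)]
      congr 1
      ext x
      by_cases hx : x ∈ DD q
      · simp only [hx, indicator_of_mem]
        rw [← ENNReal.rpow_mul]
        congr 2
        field_simp
      · simp only [hx, not_false_eq_true, indicator_of_notMem]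
        rw [ENNReal.zero_rpow_of_pos hp'0, zero_mul]
    rw [h2] at h1
    have h3 : A ≤ ∫⁻ x in DD q, SS f G x *
        ((DD q).indicator (fun x => (min (SS f G x) (N : ℝ≥0∞)) ^ (p - 1)) x * w x) := by
      rw [hA]
      refine setLIntegral_mono' (measDD q) fun x hx => ?_
      simp only [hx, indicator_of_mem]
      rw [← mul_assoc]
      refine mul_le_mul_left ?_ _
      have : (min (SS f G x) (N : ℝ≥0∞)) ^ p =
          (min (SS f G x) (N : ℝ≥0∞)) * (min (SS f G x) (N : ℝ≥0∞)) ^ (p - 1) := by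
        conv_lhs => rw [show p = 1 + (p - 1) by ring]
        rw [ENNReal.rpow_add_of_nonneg _ _ (by norm_num) hp1.le, ENNReal.rpow_one]
      rw [this]
      exact mul_le_mul_left (min_le_left _ _) _
    have hAt : A ≠ ⊤ := by
      have h4 : A ≤ (N : ℝ≥0∞) ^ p * ∫⁻ x in DD q, w x := by
        rw [hA, ← lintegral_const_mul _ h.meas]
        refine lintegral_mono fun x => ?_
        exact mul_le_mul_left (ENNReal.rpow_le_rpow (min_le_right _ _) hp0.le) _
      have h5 : (∫⁻ x in DD q, w x) ≠ ⊤ := by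
        rw [← setLIntegral_congr (DI_ae q)]; exact (h.fin _ _).ne
      exact ne_top_of_le_ne_top
        (ENNReal.mul_ne_top (ENNReal.rpow_ne_top_of_nonneg hp0.le (ENNReal.natCast_ne_top N)) h5) h4
    have h6 : A ≤ (K * 2 ^ p * ((Cm * I) ^ (1 / p) * Cs ^ (1 / (p / (p - 1))))) *
        A ^ (1 / (p / (p - 1))) := by
      refine (h3.trans h1).trans (le_of_eq ?_)
      rw [ENNReal.mul_rpow_of_nonneg _ _ hq0]
      ring
    refine (absorb hp hAt h6).trans (le_of_eq ?_)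
    have e0 : 1 / (p / (p - 1)) * p = p - 1 := by field_simp
    have e1 : ((Cm * I) ^ (1 / p) * Cs ^ (1 / (p / (p - 1)))) ^ p = Cm * I * Cs ^ (p - 1) := by
      rw [ENNReal.mul_rpow_of_nonneg _ _ hp0.le, ← ENNReal.rpow_mul, ← ENNReal.rpow_mul,
        one_div_mul_cancel hp0.ne', ENNReal.rpow_one, e0]
    rw [ENNReal.mul_rpow_of_nonneg (K * 2 ^ p) _ hp0.le, e1]
    generalize (K * 2 ^ p) ^ p = X
    ring
  have hlim : Tendsto (fun N : ℕ => ∫⁻ x in DD q, (min (SS f G x) N) ^ p * w x) atTop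
      (𝓝 (∫⁻ x in DD q, (SS f G x) ^ p * w x)) := by
    apply lintegral_tendsto_of_tendsto_of_monotone
    · intro n
      exact (((hSm.min measurable_const).pow_const _).mul h.meas).aemeasurable
    · refine Eventually.of_forall fun x m n hmn => ?_
      have : (m : ℝ≥0∞) ≤ n := by exact_mod_cast hmn
      exact mul_le_mul_left (ENNReal.rpow_le_rpow (min_le_min_left _ this) hp0.le) _
    · filter_upwards [ae_restrict_of_ae (w_ne_top h)] with x hx
      refine ENNReal.Tendsto.mul_const ?_ (Or.inr hx)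
      have h1 : Tendsto (fun N : ℕ => min (SS f G x) (N : ℝ≥0∞)) atTop (𝓝 (SS f G x)) := by
        have := (tendsto_const_nhds (x := SS f G x) (f := (atTop : Filter ℕ))).min
          ENNReal.tendsto_nat_nhds_top
        simpa using this
      exact (ENNReal.continuous_rpow_const.tendsto _).comp h1
  exact le_of_tendsto' hlim hAN

end Pool.Agent.U83.HW.SUM
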